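import Mathlib
import Pool.Graph.R_pool_sql_team_39128cda.H.MP_42b5d3_al.Basic

/-!
# MP_42b5d3_al: every strongly regular ring is basic, and over every commutative ring there are
strongly regular algebras which are not F-noetherian

The library has one countable product of division rings (over `ℚ`) which is basic and not
F-noetherian (and examples of Golod type).  Here: every strongly regular ring is basic; for every
commutative ring `k ≠ 0` there is a countable product of division `k`-algebras which is not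
F-noetherian, and there are arbitrarily large examples; in contrast, products of division rings of
bounded dimension over their centres are F-noetherian.
-/

set_option autoImplicit false

universe u v w

namespace Pool.Agent.Results.MP_42b5d3_al.EveryField

open Function nonZeroDivisors
open Pool.Agent.H.MP_42b5d3_al (Gm up_ext gx gs gt)

/-! ### Definitions -/

/-- The basic condition for left modules (in the universe `v`): whenever `M` is a finitely
generated left module and a left module `A` admits an epimorphism `f` and a monomorphism `i` to `M`,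
`f` is an isomorphism. -/
def LeftBasic (R : Type u) [Ring R] : Prop :=
  ∀ (M A : Type v) [AddCommGroup M] [Module R M] [AddCommGroup A] [Module R A],
    Module.Finite R M → ∀ f i : A →ₗ[R] M, Surjective f → Injective i → Bijective f

/-- A ring is basic if the basic condition holds for left modules and for right modules
(left modules over the opposite ring). -/
def Basic (R : Type u) [Ring R] : Prop :=
  LeftBasic.{u, v} R ∧ LeftBasic.{u, v} Rᵐᵒᵖ

/-- A ring is F-noetherian if every finite subset lies in a subring which is left and right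
noetherian. -/
def FNoetherian (R : Type u) [Ring R] : Prop :=
  ∀ s : Set R, s.Finite → ∃ S : Subring R, s ⊆ S ∧ IsNoetherianRing S ∧ IsNoetherianRing Sᵐᵒᵖ

/-- A ring is strongly regular if every element `a` is of the form `a² b`. -/
def StronglyRegular (R : Type u) [Ring R] : Prop := ∀ a : R, ∃ b : R, a * a * b = a

/-- There are division `k`-algebras `D_0, D_1, …` and a finite subset `s` of `∏ D_i` such that no
subring of `∏ D_i` containing `s` is left noetherian, and none is right noetherian. -/
def BadProduct (k : Type w) [CommRing k] : Prop :=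
  ∃ (D : ℕ → Type w) (_ : ∀ i, DivisionRing (D i)) (_ : ∀ i, Algebra k (D i))
    (s : Set (∀ i, D i)), s.Finite ∧
    ∀ S : Subring (∀ i, D i), s ⊆ S → ¬ IsNoetherianRing S ∧ ¬ IsNoetherianRing Sᵐᵒᵖ

/-- For every cardinal `κ` there is a strongly regular `k`-algebra with at least `κ` elements which is
basic and not F-noetherian. -/
def LargeExamples (k : Type w) [CommRing k] : Prop :=
  ∀ κ : Cardinal.{w}, ∃ (R : Type w) (_ : Ring R) (_ : Algebra k R), StronglyRegular R ∧
    Basic.{w, v} R ∧ ¬ FNoetherian R ∧ κ ≤ Cardinal.mk R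

/-! ### Strongly regular rings are basic -/

section basic

theorem sq_zero {R : Type u} [Ring R] (h : StronglyRegular R) {a : R} (ha : a * a = 0) : a = 0 := by
  obtain ⟨b, hb⟩ := h a
  rw [← hb, ha, zero_mul]

theorem two_sided {R : Type u} [Ring R] (h : StronglyRegular R) (a : R) :
    ∃ b : R, (∀ r, b * a * r = r * (b * a)) ∧ b * a * a = a := by
  obtain ⟨b, hb⟩ := h a
  have h1 : a * b * a = a := by
    have h2 : (a - a * b * a) * (a - a * b * a) = 0 := by
      have e1 : a * (a * b * a) = a * a := by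
        rw [← mul_assoc, ← mul_assoc, hb]
      have e2 : a * b * a * (a * b * a) = a * b * a * a := by
        rw [mul_assoc (a * b) a (a * b * a), e1, ← mul_assoc]
      rw [mul_sub, sub_mul, sub_mul, e1, e2]
      simp
    exact (sub_eq_zero.1 (sq_zero h h2)).symm
  set e := b * a with he
  have hee : e * e = e := by
    rw [he, show b * a * (b * a) = b * (a * b * a) by noncomm_ring, h1]
  have hc : ∀ r, e * r = r * e := by
    intro r
    have h3 : e * r - e * r * e = 0 := by
      apply sq_zero h
      have e1 : e * r * e * (e * r) = e * r * e * r := by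
        rw [show e * r * e * (e * r) = e * r * (e * e) * r by noncomm_ring, hee]
      have e2 : e * r * e * (e * r * e) = e * r * e * r * e := by
        rw [show e * r * e * (e * r * e) = e * r * (e * e) * r * e by noncomm_ring, hee]
      rw [mul_sub, sub_mul, sub_mul, e1, e2,
        show e * r * (e * r) = e * r * e * r by noncomm_ring,
        show e * r * (e * r * e) = e * r * e * r * e by noncomm_ring]
      simp
    have h4 : r * e - e * r * e = 0 := by
      apply sq_zero h
      have e1 : r * e * (e * r * e) = r * e * r * e := by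
        rw [show r * e * (e * r * e) = r * (e * e) * r * e by noncomm_ring, hee]
      have e2 : e * r * e * (e * r * e) = e * r * e * r * e := by
        rw [show e * r * e * (e * r * e) = e * r * (e * e) * r * e by noncomm_ring, hee]
      rw [mul_sub, sub_mul, sub_mul, e1, e2,
        show r * e * (r * e) = r * e * r * e by noncomm_ring,
        show e * r * e * (r * e) = e * r * e * r * e by noncomm_ring]
      simp
    rw [sub_eq_zero.1 h3, sub_eq_zero.1 h4]
  refine ⟨b, hc, ?_⟩
  rw [← he, hc a, he, ← mul_assoc, h1]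

theorem StronglyRegular.op {R : Type u} [Ring R] (h : StronglyRegular R) :
    StronglyRegular Rᵐᵒᵖ := by
  intro a
  obtain ⟨b, -, hb⟩ := two_sided h a.unop
  refine ⟨.op b, MulOpposite.unop_injective ?_⟩
  simp only [MulOpposite.unop_mul, MulOpposite.unop_op]
  rw [← mul_assoc, hb]

def TT {R : Type u} [Ring R] (I : Ideal R) (M : Type u) [AddCommGroup M] [Module R M] :
    Submodule R M where
  carrier := {x | ∃ e ∈ I, (∀ r, e * r = r * e) ∧ e • x = x}
  zero_mem' := ⟨0, zero_mem _, by simp, smul_zero _⟩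
  add_mem' := by
    rintro x y ⟨e, e1, e2, e3⟩ ⟨g, g1, g2, g3⟩
    refine ⟨e + g - e * g, sub_mem (add_mem e1 g1) (I.mul_mem_left _ g1), fun r => ?_, ?_⟩
    · rw [sub_mul, add_mul, mul_sub, mul_add, e2 r, g2 r, mul_assoc, g2 r, ← mul_assoc, e2 r,
        mul_assoc]
    · rw [smul_add, sub_smul, sub_smul, add_smul, add_smul, e3, g3, e2 g, mul_smul, e3, ← e2 g,
        mul_smul, g3]
      abel
  smul_mem' := by
    rintro r x ⟨e, e1, e2, e3⟩
    exact ⟨e, e1, e2, by rw [← mul_smul, e2, mul_smul, e3]⟩

theorem orzech {R : Type u} [Ring R] (hR : StronglyRegular R) : OrzechProperty R := by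
  have h : ∀ a : R, ∃ v, (∀ r, v * a * r = r * (v * a)) ∧ v * a * a = a := two_sided hR
  refine ⟨fun {M} _ _ _ N f hf => ?_⟩
  let _ := Module.addCommMonoidToAddCommGroup R (M := M)
  refine (injective_iff_map_eq_zero f).2 fun n hn => by_contra fun h0 => ?_
  obtain ⟨I, hI, hle⟩ := Ideal.exists_le_maximal (LinearMap.ker (LinearMap.toSpanSingleton R N n))
    (fun e => h0 (by simpa using (Ideal.eq_top_iff_one _).1 e))
  have := isSimpleModule_iff_isCoatom.2 hI.out
  obtain ⟨k, φ, hφ⟩ := Module.Finite.exists_fin' R M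
  have hT : ∀ x : M, I ≤ LinearMap.ker ((TT I M).mkQ ∘ₗ LinearMap.toSpanSingleton R M x) := by
    intro x a ha
    obtain ⟨v, v1, v2⟩ := h a
    exact (Submodule.Quotient.mk_eq_zero _).2
      ⟨v * a, I.mul_mem_left v ha, v1, show (v * a) • a • x = a • x by rw [← mul_smul, v2]⟩
  have : IsNoetherian R (M ⧸ TT I M) := by
    refine isNoetherian_of_surjective (M := Fin k → R ⧸ I) (LinearMap.lsum R _ ℕ fun i =>
      I.liftQ _ (hT (φ (Pi.single i 1)))) (LinearMap.range_eq_top.2 fun y => ?_)
    obtain ⟨y, rfl⟩ := (TT I M).mkQ_surjective y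
    obtain ⟨y, rfl⟩ := hφ y
    refine ⟨fun i => Submodule.Quotient.mk (y i), ?_⟩
    conv_rhs => rw [pi_eq_sum_univ' y]
    simp
  have hi := IsNoetherian.injective_of_surjective_of_injective
    ((TT I N).mapQ (TT I M) N.subtype fun x ⟨e, e1, e2, e3⟩ => ⟨e, e1, e2, congrArg Subtype.val e3⟩)
    ((TT I N).mapQ (TT I M) f fun x ⟨e, e1, e2, e3⟩ => ⟨e, e1, e2, by rw [← map_smul, e3]⟩)
    (by
      rw [injective_iff_map_eq_zero]
      intro x hx
      obtain ⟨x, rfl⟩ := (TT I N).mkQ_surjective x
      obtain ⟨e, e1, e2, e3⟩ := (Submodule.Quotient.mk_eq_zero _).1 hx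
      exact (Submodule.Quotient.mk_eq_zero _).2 ⟨e, e1, e2, Subtype.ext e3⟩)
    (fun y => by
      obtain ⟨y, rfl⟩ := (TT I M).mkQ_surjective y
      obtain ⟨y, rfl⟩ := hf y
      exact ⟨Submodule.Quotient.mk y, rfl⟩)
  obtain ⟨e, e1, -, e3⟩ := (Submodule.Quotient.mk_eq_zero _).1
    ((injective_iff_map_eq_zero _).1 hi (Submodule.Quotient.mk n) (by simp [hn]))
  exact hI.ne_top ((Ideal.eq_top_iff_one _).2 (by
    simpa using add_mem e1 (hle (show 1 - e ∈ _ by simp [sub_smul, e3]))))

theorem leftBasic {R : Type u} [Ring R] (hR : StronglyRegular R) : LeftBasic.{u, v} R := by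
  intro M A _ _ _ _ hM f i hf hi
  have := orzech hR
  exact ⟨OrzechProperty.injective_of_surjective_of_injective i f hi hf, hf⟩

theorem basic {R : Type u} [Ring R] (hR : StronglyRegular R) : Basic.{u, v} R :=
  ⟨leftBasic hR, leftBasic hR.op⟩

theorem map {R : Type u} {S : Type v} [Ring R] [Ring S] (hR : StronglyRegular R) (f : R →+* S)
    (hf : Surjective f) : StronglyRegular S := by
  intro a
  obtain ⟨a, rfl⟩ := hf a
  obtain ⟨b, hb⟩ := hR a
  exact ⟨f b, by rw [← map_mul, ← map_mul, hb]⟩

theorem pi {ι : Type u} (R : ι → Type v) [∀ i, Ring (R i)] (h : ∀ i, StronglyRegular (R i)) :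
    StronglyRegular (∀ i, R i) := by
  intro a
  choose b hb using fun i => h i (a i)
  exact ⟨b, funext hb⟩

theorem division (D : Type u) [DivisionRing D] : StronglyRegular D := by
  intro a
  refine ⟨a⁻¹, ?_⟩
  rcases eq_or_ne a 0 with rfl | h
  · simp
  · rw [mul_assoc, mul_inv_cancel₀ h, mul_one]

end basic

/-! ### Fields of fractions of group algebras over a field -/

section algebras

variable (k : Type w) [Field k]

theorem ore {G H : Type} [Group G] [CommGroup H] [UniqueProds G] (ψ : H →* G) (hψ : Injective ψ)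
    (F : Set G) (hF : F.Finite) (h : ∀ g, ∃ c, ∃ r ∈ F, g = ψ c * r) :
    Nonempty (OreLocalization.OreSet (MonoidAlgebra k G)⁰) := by
  let ι := MonoidAlgebra.mapDomainRingHom k ψ
  have hι : Injective ι := MonoidAlgebra.mapDomain_injective hψ
  let _ : Module (MonoidAlgebra k H) (MonoidAlgebra k G) := Module.compHom _ ι
  have hs : ∀ (c : MonoidAlgebra k H) (a : MonoidAlgebra k G), c • a = ι c * a := fun _ _ => rfl
  have : Module.Finite (MonoidAlgebra k H) (MonoidAlgebra k G) := by
    refine ⟨Submodule.fg_def.2 ⟨_, hF.image fun r => MonoidAlgebra.single r 1, eq_top_iff.2 ?_⟩⟩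
    rintro a -
    induction a using MonoidAlgebra.induction_linear with
    | zero => exact zero_mem _
    | add a b ha hb => exact add_mem ha hb
    | single g q =>
      obtain ⟨c, r, hr, rfl⟩ := h g
      have : MonoidAlgebra.single (ψ c * r) q =
          MonoidAlgebra.single c q • (MonoidAlgebra.single r 1 : MonoidAlgebra k G) := by
        simp [hs, ι, MonoidAlgebra.single_mul_single]
      exact this ▸ Submodule.smul_mem _ _ (Submodule.subset_span ⟨r, hr, rfl⟩)
  rw [OreLocalization.nonempty_oreSet_iff_of_noZeroDivisors]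
  intro r s
  by_contra hc
  push Not at hc
  let L : (MonoidAlgebra k G × MonoidAlgebra k G) →ₗ[MonoidAlgebra k H] MonoidAlgebra k G :=
    ⟨⟨fun p => p.1 * r - p.2 * s, fun p q => by simp [add_mul]; abel⟩,
      fun c p => by simp [hs, mul_sub, mul_assoc]⟩
  have hL : Injective L := (injective_iff_map_eq_zero L).2 fun p hp => by
    have hp' : p.1 * r = p.2 * s := sub_eq_zero.1 hp
    by_cases h1 : p.1 = 0
    · rw [h1, zero_mul] at hp'
      exact Prod.ext h1 ((mul_eq_zero.1 hp'.symm).resolve_right (nonZeroDivisors.ne_zero s.2))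
    · exact (hc p.2 ⟨p.1, mem_nonZeroDivisors_of_ne_zero h1⟩ hp').elim
  have h1 := (rank_add_rank_le_rank_prod _ _).trans (L.rank_le_of_injective hL)
  have h2 := (LinearMap.toSpanSingleton (MonoidAlgebra k H) (MonoidAlgebra k G) 1).rank_le_of_injective
    fun a b e => hι (by simpa [hs] using e)
  obtain ⟨n, hn⟩ := Cardinal.lt_aleph0.1
    (Module.rank_lt_aleph0 (MonoidAlgebra k H) (MonoidAlgebra k G))
  rw [Module.rank_self, hn] at h2
  rw [hn] at h1
  norm_cast at h1 h2
  omega

noncomputable instance oreSet (i : ℕ) :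
    OreLocalization.OreSet (MonoidAlgebra k (Gm (i + 1)))⁰ :=
  Classical.choice <| ore k (H := Multiplicative ((ZMod (i + 1) → ℤ) × (ZMod (i + 1) → ℤ) × ℤ))
    ⟨⟨fun c => ⟨c.toAdd.1, fun j => 2 * c.toAdd.2.1 j, (i + 1 : ℕ) * c.toAdd.2.2⟩,
      by ext <;> simp⟩, fun a b => by ext <;> simp [-Nat.cast_add, mul_add]⟩
    (fun a b h => by
      have h1 := congrArg Gm.e h
      have h2 := congrArg Gm.f h
      have h3 := congrArg Gm.k h
      exact Multiplicative.toAdd.injective (Prod.ext h1 (Prod.ext (funext fun j =>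
        mul_left_cancel₀ two_ne_zero (congrFun h2 j)) (mul_left_cancel₀ (by omega) h3))))
    ((fun p : (ZMod (i + 1) → ℤ) × ℤ => ⟨0, p.1, p.2⟩) ''
      ((Set.univ.pi fun _ => Set.Ico (0 : ℤ) 2) ×ˢ Set.Ico (0 : ℤ) (i + 1 : ℕ)))
    ((Set.Finite.pi fun _ => Set.finite_Ico _ _).prod (Set.finite_Ico _ _) |>.image _)
    fun g => ⟨.ofAdd (g.e, fun j => g.f j / 2, g.k / (i + 1 : ℕ)), _,
      ⟨(fun j => g.f j % 2, g.k % (i + 1 : ℕ)), ⟨fun j _ => by simp only [Set.mem_Ico]; omega,
        Int.emod_nonneg _ (by omega), Int.emod_lt_of_pos _ (by omega)⟩, rfl⟩,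
      by ext <;> simp [-Nat.cast_add, Int.mul_ediv_add_emod]⟩

abbrev D (i : ℕ) : Type w :=
  OreLocalization (MonoidAlgebra k (Gm (i + 1)))⁰ (MonoidAlgebra k (Gm (i + 1)))

noncomputable def em (i : ℕ) : Gm (i + 1) →* D k i :=
  (OreLocalization.numeratorRingHom (S := (MonoidAlgebra k (Gm (i + 1)))⁰)).toMonoidHom.comp
    (MonoidAlgebra.of k _)

theorem em_inj (i : ℕ) : Injective (em k i) :=
  (OreLocalization.numeratorHom_inj (S := (MonoidAlgebra k (Gm (i + 1)))⁰)
    fun _ h => h.1).comp MonoidAlgebra.of_injective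

end algebras

open Pool.Agent.H.MP_42b5d3_al (gs_succ comm_iff)

theorem chain {S : Type u} [Ring S] (J : ℕ → Set S) (u : ℕ → S) (h1 : ∀ n, u n ∈ J (n + 1))
    (h2 : ∀ n, u n ∉ J n) (I : ℕ →o Ideal S) (h : ∀ n, (I n : Set S) = J n) :
    ¬ IsNoetherianRing S := fun hS => by
  obtain ⟨n, hn⟩ := monotone_stabilizes_iff_noetherian.2 hS I
  exact h2 n (by rw [← h, hn (n + 1) n.le_succ, h]; exact h1 n)

theorem main (K : ℕ → Type u) [∀ i, DivisionRing (K i)] (em : ∀ i, Gm (i + 1) →* K i)
    (em_inj : ∀ i, Function.Injective (em i)) : ∃ s : Set (∀ i, K i), s.Finite ∧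
      ∀ S : Subring (∀ i, K i), s ⊆ S → ¬ IsNoetherianRing S ∧ ¬ IsNoetherianRing Sᵐᵒᵖ := by
  refine ⟨{fun i => em i (gx i), fun i => em i (gs i 0), fun i => em i (gt i),
    fun i => em i (gt i)⁻¹}, Set.toFinite _, fun S hS => ?_⟩
  have hx : (fun i => em i (gx i)) ∈ S := hS (by simp)
  have hs : ∀ n, (fun i => em i (gs i n)) ∈ S := fun n => by
    induction n with
    | zero => exact hS (by simp)
    | succ n ih =>
      simp only [gs_succ, map_mul]
      exact mul_mem (mul_mem (hS (a := fun i => em i (gt i)) (by simp)) ih)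
        (hS (a := fun i => em i (gt i)⁻¹) (by simp))
  let u : ℕ → S := fun n => ⟨_, hx⟩ * ⟨_, hs n⟩ - ⟨_, hs n⟩ * ⟨_, hx⟩
  have hu : ∀ n i, n ≤ i → ((u n).1 i = 0 ↔ n < i) := fun n i h => by
    rw [← comm_iff h, ← (em_inj i).eq_iff, map_mul, map_mul]; exact sub_eq_zero
  constructor
  · exact chain (fun n => {r | ∀ i, n ≤ i → r.1 i = 0}) u
      (fun n i h => (hu n i (by omega)).2 h) (fun n h => lt_irrefl n ((hu n n le_rfl).1 (h n le_rfl)))
      ⟨fun n => ⟨⟨⟨{r | ∀ i, n ≤ i → r.1 i = 0}, fun ha hb i h => by simp [ha i h, hb i h]⟩,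
        fun _ _ => rfl⟩, fun c a ha i h => by simp [ha i h]⟩,
        fun _ _ h _ ha i hi => ha i (h.trans hi)⟩ fun _ => rfl
  · exact chain (fun n => {r | ∀ i, n ≤ i → r.unop.1 i = 0}) (fun n => .op (u n))
      (fun n i h => (hu n i (by omega)).2 h) (fun n h => lt_irrefl n ((hu n n le_rfl).1 (h n le_rfl)))
      ⟨fun n => ⟨⟨⟨{r | ∀ i, n ≤ i → r.unop.1 i = 0}, fun ha hb i h => by simp [ha i h, hb i h]⟩,
        fun _ _ => rfl⟩, fun c a ha i h => by simp [ha i h]⟩,
        fun _ _ h _ ha i hi => ha i (h.trans hi)⟩ fun _ => rfl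

/-- Homomorphic images of F-noetherian rings are F-noetherian. -/
theorem FNoetherian.map {R : Type u} {S : Type v} [Ring R] [Ring S] (hR : FNoetherian R)
    (f : R →+* S) (hf : Surjective f) : FNoetherian S := by
  intro s hs
  obtain ⟨g, hg⟩ := hf.hasRightInverse
  obtain ⟨T, hT, h1, h2⟩ := hR (g '' s) (hs.image g)
  refine ⟨T.map f, ?_, ?_, ?_⟩
  · intro x hx
    exact ⟨g x, hT ⟨x, hx, rfl⟩, hg x⟩
  · let φ : T →+* T.map f := (f.comp T.subtype).codRestrict (T.map f) (fun x => ⟨x, x.2, rfl⟩)
    refine isNoetherianRing_of_surjective T _ φ ?_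
    rintro ⟨_, x, hx, rfl⟩
    exact ⟨⟨x, hx⟩, rfl⟩
  · let φ : T →+* T.map f := (f.comp T.subtype).codRestrict (T.map f) (fun x => ⟨x, x.2, rfl⟩)
    refine isNoetherianRing_of_surjective Tᵐᵒᵖ _ φ.op ?_
    intro y
    obtain ⟨x, hx, hxy⟩ := y.unop.2
    exact ⟨.op ⟨x, hx⟩, MulOpposite.unop_injective (Subtype.ext hxy)⟩

theorem prod {R : Type u} {S : Type v} [Ring R] [Ring S] (hR : StronglyRegular R)
    (hS : StronglyRegular S) : StronglyRegular (R × S) := by
  rintro ⟨a, b⟩
  obtain ⟨c, hc⟩ := hR a
  obtain ⟨d, hd⟩ := hS b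
  exact ⟨⟨c, d⟩, Prod.ext hc hd⟩

theorem over_ring (k : Type w) [CommRing k] [Nontrivial k] :
    ∃ (D : ℕ → Type w) (_ : ∀ i, DivisionRing (D i)) (_ : ∀ i, Algebra k (D i))
      (s : Set (∀ i, D i)), s.Finite ∧
      ∀ S : Subring (∀ i, D i), s ⊆ S → ¬ IsNoetherianRing S ∧ ¬ IsNoetherianRing Sᵐᵒᵖ := by
  obtain ⟨m, hm⟩ := Ideal.exists_maximal k
  let _ : Field (k ⧸ m) := Ideal.Quotient.field m
  obtain ⟨s, hs, h⟩ := main (D (k ⧸ m)) (em (k ⧸ m)) (em_inj (k ⧸ m))
  exact ⟨D (k ⧸ m), fun i => inferInstance,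
    fun i => Algebra.compHom (D (k ⧸ m) i) (Ideal.Quotient.mk m), s, hs, h⟩

/-! ### Algebras which are finite modules over commutative rings -/

theorem fnoeth_of_finite (C : Type v) (R : Type u) [CommRing C] [Ring R] [Algebra C R]
    [Module.Finite C R] : FNoetherian R := by
  classical
  intro s hs
  obtain ⟨n, g, hg⟩ := Module.Finite.exists_fin (R := C) (M := R)
  have hc : ∀ r : R, ∃ c : Fin n → C, ∑ i, c i • g i = r := by
    intro r
    have : r ∈ Submodule.span C (Set.range g) := by rw [hg]; trivial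
    exact (Submodule.mem_span_range_iff_exists_fun C).1 this
  choose c hc using hc
  set E : Set R := s ∪ {1} ∪ Set.range (fun p : Fin n × Fin n => g p.1 * g p.2) with hE
  have hEf : E.Finite := (hs.union (Set.finite_singleton 1)).union (Set.finite_range _)
  set T : Set C := (fun p : R × Fin n => c p.1 p.2) '' (E ×ˢ Set.univ) with hT
  have hTf : T.Finite := (hEf.prod Set.finite_univ).image _
  set A0 : Subring C := Subring.closure T with hA0
  have hN : IsNoetherianRing A0 := is_noetherian_subring_closure T hTf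
  have hmem : ∀ r ∈ E, r ∈ Submodule.span A0 (Set.range g) := by
    intro r hr
    rw [← hc r]
    refine Submodule.sum_mem _ fun i _ => ?_
    have h1 : c r i ∈ A0 := Subring.subset_closure ⟨(r, i), ⟨hr, trivial⟩, rfl⟩
    exact Submodule.smul_mem _ (⟨c r i, h1⟩ : A0) (Submodule.subset_span ⟨i, rfl⟩)
  let N : Submodule A0 R := Submodule.span A0 (Set.range g)
  have hone : (1 : R) ∈ N := hmem 1 (Or.inl (Or.inr rfl))
  have hmul : ∀ x y, x ∈ N → y ∈ N → x * y ∈ N := by
    intro x y hx hy
    have h1 : x * y ∈ N * N := Submodule.mul_mem_mul hx hy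
    have h2 : N * N ≤ N := by
      show Submodule.span A0 (Set.range g) * Submodule.span A0 (Set.range g) ≤ _
      rw [Submodule.span_mul_span, Submodule.span_le]
      rintro _ ⟨_, ⟨i, rfl⟩, _, ⟨j, rfl⟩, rfl⟩
      exact hmem _ (Or.inr ⟨(i, j), rfl⟩)
    exact h2 h1
  let S : Subalgebra A0 R := N.toSubalgebra hone hmul
  have : Module.Finite A0 S := by
    have : Module.Finite A0 N := Module.Finite.span_of_finite A0 (Set.finite_range g)
    exact this
  have : Module.Finite A0 Sᵐᵒᵖ := Module.Finite.equiv (MulOpposite.opLinearEquiv A0)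
  refine ⟨S.toSubring, fun x hx => hmem x (Or.inl (Or.inl hx)), ?_, ?_⟩
  · exact (IsNoetherianRing.of_finite A0 S : IsNoetherianRing S)
  · exact (IsNoetherianRing.of_finite A0 Sᵐᵒᵖ : IsNoetherianRing Sᵐᵒᵖ)

theorem fnoeth_pi (ι : Type w) (C : ι → Type v) (D : ι → Type u) [∀ i, CommRing (C i)]
    [∀ i, Ring (D i)] [∀ i, Algebra (C i) (D i)] (N : ℕ)
    (h : ∀ i, ∃ g : Fin N → D i, Submodule.span (C i) (Set.range g) = ⊤) :
    FNoetherian (∀ i, D i) := by
  classical
  choose g hg using h
  have hc : ∀ i (r : D i), ∃ c : Fin N → C i, ∑ j, c j • g i j = r := by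
    intro i r
    have : r ∈ Submodule.span (C i) (Set.range (g i)) := by rw [hg]; trivial
    exact (Submodule.mem_span_range_iff_exists_fun (C i)).1 this
  choose c hc using hc
  let _ : Algebra (∀ i, C i) (∀ i, D i) := Algebra.ofModule
    (fun r x y => funext fun i => smul_mul_assoc (r i) (x i) (y i))
    (fun r x y => funext fun i => mul_smul_comm (r i) (x i) (y i))
  have hs : ∀ (a : ∀ i, C i) (x : ∀ i, D i) (i : ι), (a • x) i = a i • x i := fun _ _ _ => rfl
  have : Module.Finite (∀ i, C i) (∀ i, D i) := by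
    refine ⟨Submodule.fg_def.2 ⟨Set.range (fun (j : Fin N) (i : ι) => g i j),
      Set.finite_range _, eq_top_iff.2 fun r _ => ?_⟩⟩
    have hr : r = ∑ j : Fin N, (fun i => c i (r i) j) • (fun i => g i j) := by
      funext i
      rw [Finset.sum_apply]
      conv_lhs => rw [← hc i (r i)]
      exact Finset.sum_congr rfl fun j _ => rfl
    rw [hr]
    exact Submodule.sum_mem _ fun j _ => Submodule.smul_mem _ _ (Submodule.subset_span ⟨j, rfl⟩)
  exact fnoeth_of_finite (∀ i, C i) (∀ i, D i)

/-- (1) Every strongly regular ring (every `a` is of the form `a² b`) is basic.  So all homomorphic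
images of products of division rings are basic.

(2) For every commutative ring `k ≠ 0` there are division rings `D_0, D_1, …` which are `k`-algebras
and a finite subset `s` of the product ring `∏ D_i` such that no subring containing `s` is left
noetherian and none is right noetherian.

(3) So for every commutative ring `k ≠ 0` there are arbitrarily large strongly regular, hence basic,
`k`-algebras which are not F-noetherian.

(4) In contrast, a product of rings `D_i`, each of which is generated by `N` elements (`N` fixed) as a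
module over a commutative ring `C_i` (acting centrally), is F-noetherian.  So the division rings in
(2) do not have bounded dimension over their centres. -/
theorem result :
    ((∀ (R : Type u) [Ring R], StronglyRegular R → Basic.{u, v} R) ∧
      ∀ (ι : Type w) (D : ι → Type u) [∀ i, DivisionRing (D i)] (S : Type u) [Ring S]
        (f : (∀ i, D i) →+* S), Surjective f → Basic.{u, v} S) ∧
    (∀ (k : Type w) [CommRing k] [Nontrivial k], BadProduct k) ∧
    (∀ (k : Type w) [CommRing k] [Nontrivial k], LargeExamples.{v, w} k) ∧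
    ∀ (ι : Type w) (C : ι → Type v) (D : ι → Type u) [∀ i, CommRing (C i)] [∀ i, Ring (D i)]
      [∀ i, Algebra (C i) (D i)] (N : ℕ),
      (∀ i, ∃ g : Fin N → D i, Submodule.span (C i) (Set.range g) = ⊤) →
      FNoetherian (∀ i, D i) := by
  refine ⟨⟨fun R _ hR => basic hR, ?_⟩, fun k _ _ => over_ring k, ?_, fnoeth_pi⟩
  · intro ι D _ S _ f hf
    exact basic (map (pi D fun i => division (D i)) f hf)
  · intro k _ _ κ
    obtain ⟨D, hD, hA, s, hs, h⟩ := over_ring k
    have hsr : StronglyRegular ((∀ i, D i) × (κ.out → D 0)) :=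
      prod (pi D fun i => division (D i)) (pi (fun _ : κ.out => D 0) fun _ => division (D 0))
    refine ⟨(∀ i, D i) × (κ.out → D 0), inferInstance, inferInstance, hsr, basic hsr, ?_, ?_⟩
    · intro hF
      obtain ⟨S, hS, h1, -⟩ := (hF.map (RingHom.fst (∀ i, D i) (κ.out → D 0))
        Prod.fst_surjective) s hs
      exact (h S hS).1 h1
    · have h1 : Cardinal.mk (κ.out → D 0) ≤ Cardinal.mk ((∀ i, D i) × (κ.out → D 0)) :=
        Cardinal.mk_le_of_surjective Prod.snd_surjective
      have h2 : (2 : Cardinal.{w}) ≤ Cardinal.mk (D 0) := by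
        rw [Cardinal.two_le_iff]
        exact ⟨0, 1, zero_ne_one⟩
      calc κ ≤ 2 ^ κ := (Cardinal.cantor κ).le
        _ ≤ Cardinal.mk (D 0) ^ κ := Cardinal.power_le_power_right h2
        _ = Cardinal.mk (κ.out → D 0) := by simp
        _ ≤ _ := h1

end Pool.Agent.Results.MP_42b5d3_al.EveryField
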